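import Pool.Agent.H41.CZ.Defs
import Pool.Agent.H58.SE.AA
import Pool.Agent.H59.SE.AC

/-! # Module WF (helper23) -/

set_option linter.unusedVariables false

open Ordinal Order Set
open scoped ZFSet

namespace CZ

namespace H23WF

open SF _root_.UZ

theorem tp_one (y : V) : tp 1 (fun _ => y) = ({ZFSet.pair (nS 0) y} : V) := by
  ext z
  unfold tp
  rw [ZFSet.mem_range, ZFSet.mem_singleton]
  constructor
  · rintro ⟨i, rfl⟩
    have hi : (i : ℕ) = 0 := by omega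
    simp only [hi]
  · rintro rfl
    exact ⟨0, rfl⟩

theorem exists_e {M : V → Prop} (hM : ZFm M) :
    ∃ e, M e ∧ (∀ n : ℕ, ∃ l : ℕ, ∃ A, app e (nS n) = ZFSet.pair (nS l) A) ∧
      ∀ (l : ℕ) (A : V), A ∈ SE.hf → ∃ n : ℕ, app e (nS n) = ZFSet.pair (nS l) A := by
  obtain ⟨-, h1, h2, -, -, -, -, -, h3⟩ := SE.pf_AA
  obtain ⟨-, h4, h5, -, -, -⟩ := SE.pf_AC M hM
  have hc : Ctbl M (ZFSet.prod om SE.hf) := h5 _ _ (h4 _ _ hM.inf (h3 M hM) h2) (h3 M hM)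
  rcases hc with hc | ⟨e, he, hf, ho⟩
  · exfalso
    have h6 : ZFSet.pair (nS 0) (nS 0) ∈ ZFSet.prod om SE.hf :=
      ZFSet.pair_mem_prod.2 ⟨mem_om.2 ⟨0, rfl⟩, h1 0⟩
    rw [hc] at h6
    exact absurd h6 (ZFSet.notMem_empty _)
  · refine ⟨e, he, fun n => ?_, fun l A hA => ?_⟩
    · have h6 := app_mem hf (show nS n ∈ om from mem_om.2 ⟨n, rfl⟩)
      obtain ⟨a, ha, b, hb, h7⟩ := ZFSet.mem_prod.1 h6
      obtain ⟨l, rfl⟩ := mem_om.1 ha
      exact ⟨l, b, h7⟩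
    · obtain ⟨c, hc, h7⟩ := ho _ (ZFSet.pair_mem_prod.2 ⟨mem_om.2 ⟨l, rfl⟩, hA⟩)
      obtain ⟨n, rfl⟩ := mem_om.1 (show c ∈ om from hc)
      exact ⟨n, app_eq (svl_of_isFunc hf) h7⟩

theorem dn_cn {M : V → Prop} (hM : ZFm M) {R : V} (hR : M R) :
    DN M (fun w => Cn R (w 0) (w 1)) := by
  have hc : TN M (fun w => w 1) := TN.var hM 1
  have hz : TN M (fun w => w 0) := TN.var hM 0
  have hco : ∀ {F : (ℕ → V) → V}, TN M F → TN M (fun w => co (w 0) (F w)) := fun h =>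
    TN.app hM (TN.app hM hz (TN.fst hM h)) (TN.snd hM h)
  exact DN.mem hM (TN.pair hM (TN.fst hM hc) (TN.pair hM (hco (TN.fst hM (TN.snd hM hc)))
    (TN.pair hM (hco (TN.fst hM (TN.snd hM (TN.snd hM hc))))
      (TN.snd hM (TN.snd hM (TN.snd hM hc)))))) (TN.cst hR)

theorem dn_pp {M : V → Prop} (hM : ZFm M) {R a : V} (hR : M R) (ha : M a) :
    DN M (fun w => PP M R a (w 0) (w 1) (w 2)) := by
  have hz : TN M (fun w => w 0) := TN.var hM 0
  have h1 : DN M (fun w => app (w 0) (nS 0) = w 3) :=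
    DN.eq hM (TN.app hM hz (TN.nS hM 0)) (TN.var hM 3)
  have h2 : DN M (fun w => ∀ j ∈ w 1, app a j = ∅ ∨
      app (w 0) (ZFSet.pair (nS 1) j) ∈ app a j) :=
    DN.ball (F := fun w => w 1) (S := fun w => app a (w 0) = ∅ ∨
      app (w 1) (ZFSet.pair (nS 1) (w 0)) ∈ app a (w 0)) hM (TN.var hM 1)
      ((DN.eq hM (TN.app hM (TN.cst ha) hz) (TN.empty hM)).or hM
        (DN.mem hM (TN.app hM (TN.var hM 1) (TN.pair hM (TN.nS hM 1) hz))
          (TN.app hM (TN.cst ha) hz)))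
  have h3 : DN M (fun w => ∀ c ∈ w 2, Cn R (w 0) c) :=
    DN.ball (F := fun w => w 2) (S := fun w => Cn R (w 1) (w 0)) hM (TN.var hM 2)
      (DN.at2 hM (P := fun z c => Cn R z c) (dn_cn hM hR) (TN.var hM 1) (TN.var hM 0))
  exact (h1.and hM (h2.and hM h3)).ex

/-- the predicate of the sets `W n` -/
def Q (M : V → Prop) (X R a e x n : V) : Prop := ∃ r ∈ om, ∀ y ∈ X,
  ZFSet.pair (nS 0) (ZFSet.pair x (ZFSet.pair y (ZFSet.pair (nS 1) (insert r r)))) ∈ R →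
    PP M R a (fst (app e n)) (snd (app e n)) ({ZFSet.pair (nS 0) y} : V)

theorem dn_q {M : V → Prop} (hM : ZFm M) {X R a e : V} (hX : M X) (hR : M R) (ha : M a)
    (he : M e) : DN M (fun w => Q M X R a e (w 0) (w 1)) := by
  -- the assignment is `y, r, x, n`
  have hn : TN M (fun w => app e (w 3)) := TN.app hM (TN.cst he) (TN.var hM 3)
  have h1 : DN M (fun w => PP M R a (fst (app e (w 3))) (snd (app e (w 3)))
      ({ZFSet.pair (nS 0) (w 0)} : V)) :=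
    DN.at3 hM (P := fun l A f => PP M R a l A f) (dn_pp hM hR ha) (TN.fst hM hn)
      (TN.snd hM hn) (TN.sing hM (TN.pair hM (TN.nS hM 0) (TN.var hM 0)))
  have h2 : DN M (fun w => ZFSet.pair (nS 0) (ZFSet.pair (w 2) (ZFSet.pair (w 0)
      (ZFSet.pair (nS 1) (insert (w 1) (w 1))))) ∈ R) :=
    DN.mem hM (TN.pair hM (TN.nS hM 0) (TN.pair hM (TN.var hM 2) (TN.pair hM (TN.var hM 0)
      (TN.pair hM (TN.nS hM 1) (TN.ins hM (TN.var hM 1) (TN.var hM 1)))))) (TN.cst hR)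
  exact DN.bex hM (TN.om hM) (DN.ball hM (TN.cst hX) (h2.imp hM h1))

/-- the family -/
noncomputable def W (M : V → Prop) (X R a e : V) : V :=
  resS om fun n => X.sep fun x => Q M X R a e x n

theorem w_mem {M : V → Prop} (hM : ZFm M) {X R a e : V} (hX : M X) (hR : M R) (ha : M a)
    (he : M e) : M (W M X R a e) := by
  have h : TN M (fun _ => W M X R a e) := TN.resS (F := fun _ => om)
    (G := fun w => X.sep fun x => Q M X R a e x (w 0)) hM (TN.om hM)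
    (TN.sep (S := fun w => Q M X R a e (w 0) (w 1)) hM (dn_q hM hX hR ha he) (TN.cst hX))
  exact TN.mem hM h (u := fun _ => X) fun _ => hX

theorem app_w (M : V → Prop) (X R a e : V) (n : ℕ) :
    app (W M X R a e) (nS n) = X.sep fun x => Q M X R a e x (nS n) :=
  app_resS (mem_om.2 ⟨n, rfl⟩)

theorem rk_iff {M : V → Prop} {X R : V} {d : V → V → ℝ} (hR : Rk M X R d) {x y : V}
    (hx : x ∈ X) (hy : y ∈ X) (k : ℕ) :
    ZFSet.pair (nS 0) (ZFSet.pair x (ZFSet.pair y (ZFSet.pair (nS 1) (insert (nS k) (nS k)))))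
      ∈ R ↔ ((k : ℝ) + 1) * d x y < 1 := by
  rw [hR.lt]
  constructor
  · rintro ⟨-, -, m, n, h1, h2⟩
    obtain ⟨h3, h4⟩ := ZFSet.pair_inj.1 h1
    rw [← nS_succ] at h4
    have h5 := nS_inj.1 h3
    have h6 := nS_inj.1 h4
    subst h5 h6
    push_cast at h2
    exact h2
  · intro h
    refine ⟨hx, hy, 1, k + 1, ?_, ?_⟩
    · rw [nS_succ k]
    · push_cast
      exact h

theorem q_iff {M : V → Prop} {X R a e : V} {d : V → V → ℝ} (hR : Rk M X R d) {x : V}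
    (hx : x ∈ X) (n : ℕ) : Q M X R a e x (nS n) ↔ ∃ k : ℕ, ∀ y ∈ X, ((k : ℝ) + 1) * d x y < 1 →
      PP M R a (fst (app e (nS n))) (snd (app e (nS n))) ({ZFSet.pair (nS 0) y} : V) := by
  constructor
  · rintro ⟨r, hr, h⟩
    obtain ⟨k, rfl⟩ := mem_om.1 hr
    exact ⟨k, fun y hy h1 => h y hy ((rk_iff hR hx hy k).2 h1)⟩
  · rintro ⟨k, h⟩
    exact ⟨nS k, mem_om.2 ⟨k, rfl⟩, fun y hy h1 => h y hy ((rk_iff hR hx hy k).1 h1)⟩

end H23WF

open H23WF in
theorem pf_WF : T_WF := by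
  intro M X R a d hZ hX hR ha _
  have hM : SF.ZFm M := hZ.toZFm
  obtain ⟨e, he, h1, h2⟩ := exists_e hM
  refine ⟨H23WF.W M X R a e, ⟨w_mem hM hX.mem hR.n ha he, fun n => ⟨?_, ?_⟩⟩, ?_⟩
  · intro x hx
    rw [app_w, ZFSet.mem_sep] at hx
    exact hx.1
  · intro x hx
    rw [app_w, ZFSet.mem_sep] at hx
    obtain ⟨hxX, hq⟩ := hx
    rw [q_iff hR hxX] at hq
    obtain ⟨k, hk⟩ := hq
    have hk0 : (0 : ℝ) < (k : ℝ) + 1 := by positivity
    refine ⟨1 / (2 * ((k : ℝ) + 1)), by positivity, fun y hy hxy => ?_⟩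
    rw [app_w, ZFSet.mem_sep]
    refine ⟨hy, ?_⟩
    rw [q_iff hR hy]
    refine ⟨2 * k + 1, fun z hz hyz => hk z hz ?_⟩
    push_cast at hyz
    rw [lt_div_iff₀ (by positivity)] at hxy
    have h3 := hX.tri x hxX y hy z hz
    nlinarith [mul_le_mul_of_nonneg_left h3 hk0.le]
  · intro l A hA
    obtain ⟨n, hn⟩ := h2 l A hA
    refine ⟨n, fun x => ?_⟩
    rw [app_w, ZFSet.mem_sep]
    refine and_congr_right fun hx => ?_
    rw [q_iff hR hx, hn, SF.fst_pair, SF.snd_pair]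
    constructor
    · rintro ⟨k, hk⟩
      have hk0 : (0 : ℝ) < (k : ℝ) + 1 := by positivity
      refine ⟨1 / ((k : ℝ) + 1), by positivity, fun y hy hxy => ?_⟩
      rw [tp_one]
      rw [lt_div_iff₀ hk0] at hxy
      exact hk y hy (by linarith)
    · rintro ⟨ρ, hρ, h⟩
      obtain ⟨k, hk⟩ := exists_nat_gt (1 / ρ)
      refine ⟨k, fun y hy hxy => ?_⟩
      rw [← tp_one]
      refine h y hy ?_
      have hk0 : (0 : ℝ) < (k : ℝ) + 1 := by positivity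
      rw [div_lt_iff₀ hρ] at hk
      by_contra h4
      push Not at h4
      nlinarith [mul_le_mul_of_nonneg_left h4 hk0.le]

end CZ
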